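import Mathlib

/-!
# Chow groups of hypersurfaces and Lefschetz pencils: data and known facts

The degree `d` is fixed.
-/

namespace Pool.Agent.N522.HT

/-- Hypersurfaces of degree `d` in projective spaces, smooth or with a single singular point which is
an ordinary double point, their rational Chow groups, and Lefschetz pencils of hyperplane
sections. -/
structure Theory where
  /-- hypersurfaces in `ℙ^{n+1}` of degree `d` which are smooth or have exactly one singular point,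
  an ordinary double point -/
  Hyp : ℕ → Type
  /-- smoothness -/
  Smooth : ∀ {n : ℕ}, Hyp n → Prop
  /-- `A X i = CH_{n-i}(X) ⊗ ℚ` -/
  A : ∀ {n : ℕ}, Hyp n → ℕ → Type
  /-- the group structure -/
  grp : ∀ {n : ℕ} (X : Hyp n) (i : ℕ), AddCommGroup (A X i)
  /-- the `ℚ`-structure -/
  mod : ∀ {n : ℕ} (X : Hyp n) (i : ℕ), Module ℚ (A X i)
  /-- `h^i ∩ [X]` -/
  hp : ∀ {n : ℕ} (X : Hyp n) (i : ℕ), A X i
  /-- `a ↦ deg (h^{n-i} ∩ a)` -/
  deg : ∀ {n : ℕ} (X : Hyp n) (i : ℕ), A X i →ₗ[ℚ] ℚ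
  /-- pencils of hyperplane sections all of whose members are smooth or have exactly one singular
  point, an ordinary double point -/
  Pencil : ∀ {n : ℕ}, Hyp (n + 1) → Type
  /-- the points of `ℙ^1(ℂ)` -/
  Pt : Type
  /-- the members of a pencil -/
  fib : ∀ {n : ℕ} {X : Hyp (n + 1)}, Pencil X → Pt → Hyp n
  /-- the Gysin restriction to a member -/
  res : ∀ {n : ℕ} {X : Hyp (n + 1)} (P : Pencil X) (t : Pt) (i : ℕ), A X i →ₗ[ℚ] A (fib P t) i
  /-- the push-forward from a member -/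
  push : ∀ {n : ℕ} {X : Hyp (n + 1)} (P : Pencil X) (t : Pt) (i : ℕ),
    A (fib P t) i →ₗ[ℚ] A X (i + 1)

attribute [instance] Theory.grp Theory.mod

variable {T : Theory}

/-- `CH_{n-i}(X) ⊗ ℚ` is spanned by `h^i`. -/
def Spanned {n : ℕ} (X : T.Hyp n) (i : ℕ) : Prop := ∀ a : T.A X i, ∃ c : ℚ, a = c • T.hp X i

/-- Q1 for hypersurfaces of degree `d`. -/
def Q1 (T : Theory) : Prop :=
  ∀ n i : ℕ, 1 ≤ n → 2 * i < n → ∀ X : T.Hyp n, T.Smooth X → Spanned X i

/-- The case `n = 2 i + 1` of Q1 for hypersurfaces of degree `d`. -/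
def Boundary (T : Theory) (i : ℕ) : Prop :=
  ∀ X : T.Hyp (2 * i + 1), T.Smooth X → Spanned X i

/-- Known facts. -/
structure Facts (T : Theory) : Prop where
  /-- in positive dimension smooth hypersurfaces, and in dimension at least two also the nodal ones,
  are irreducible -/
  irred : ∀ (n : ℕ) (X : T.Hyp n), 1 ≤ n → (2 ≤ n ∨ T.Smooth X) → Spanned X 0
  /-- Lefschetz pencils exist -/
  pencil : ∀ (n : ℕ) (X : T.Hyp (n + 1)), 2 ≤ n → Nonempty (T.Pencil X)
  /-- and have a smooth member -/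
  member : ∀ (n : ℕ) (X : T.Hyp (n + 1)) (P : T.Pencil X), 2 ≤ n → ∃ t : T.Pt, T.Smooth (T.fib P t)
  /-- restriction of `h^i` -/
  res_hp : ∀ (n : ℕ) (X : T.Hyp (n + 1)) (P : T.Pencil X) (t : T.Pt) (i : ℕ),
    T.res P t i (T.hp X i) = T.hp (T.fib P t) i
  /-- push-forward of `h^i` -/
  push_hp : ∀ (n : ℕ) (X : T.Hyp (n + 1)) (P : T.Pencil X) (t : T.Pt) (i : ℕ),
    T.push P t i (T.hp (T.fib P t) i) = T.hp X (i + 1)
  /-- projection formula -/
  deg_res : ∀ (n : ℕ) (X : T.Hyp (n + 1)) (P : T.Pencil X) (t : T.Pt) (i : ℕ), i ≤ n →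
    ∀ a : T.A X i, T.deg (T.fib P t) i (T.res P t i a) = T.deg X i a
  /-- `deg (h^n) = d ≠ 0` -/
  deg_hp : ∀ (n : ℕ) (X : T.Hyp n) (i : ℕ), i ≤ n → T.deg X i (T.hp X i) ≠ 0
  /-- spreading out (Bloch–Srinivas): a class which restricts to zero on all the smooth members of a
  pencil is a sum of classes pushed forward from members -/
  spread : ∀ (n : ℕ) (X : T.Hyp (n + 1)) (P : T.Pencil X) (i : ℕ), 2 ≤ n → ∀ a : T.A X (i + 1),
    (∀ t : T.Pt, T.Smooth (T.fib P t) → T.res P t (i + 1) a = 0) →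
      a ∈ ⨆ t : T.Pt, LinearMap.range (T.push P t i)

end Pool.Agent.N522.HT
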