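import Pool.Agent.N522.HT.Defs

/-!
# Reduction of Hartshorne's conjecture to the case `n = 2 i + 1`
-/

namespace Pool.Agent.N522.HT

variable {T : Theory}

/-- The inductive step. -/
theorem step (F : Facts T) (n i : ℕ) (hn : 2 ≤ n) (hi : i + 1 ≤ n)
    (hS : ∀ Y : T.Hyp n, T.Smooth Y → Spanned Y (i + 1)) (hN : ∀ Y : T.Hyp n, Spanned Y i)
    (X : T.Hyp (n + 1)) : Spanned X (i + 1) := by
  intro a
  obtain ⟨P⟩ := F.pencil n X hn
  obtain ⟨t₀, ht₀⟩ := F.member n X P hn
  obtain ⟨c, hc⟩ := hS _ ht₀ (T.res P t₀ (i + 1) a)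
  have hdeg : ∀ t : T.Pt, T.deg (T.fib P t) (i + 1) (T.hp (T.fib P t) (i + 1)) =
      T.deg X (i + 1) (T.hp X (i + 1)) := by
    intro t
    rw [← F.res_hp n X P t (i + 1), F.deg_res n X P t (i + 1) hi]
  have hne : T.deg X (i + 1) (T.hp X (i + 1)) ≠ 0 := F.deg_hp (n + 1) X (i + 1) (by omega)
  have hca : T.deg X (i + 1) a = c * T.deg X (i + 1) (T.hp X (i + 1)) := by
    rw [← F.deg_res n X P t₀ (i + 1) hi a, hc, map_smul, hdeg t₀, smul_eq_mul]
  have hres : ∀ t : T.Pt, T.Smooth (T.fib P t) →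
      T.res P t (i + 1) (a - c • T.hp X (i + 1)) = 0 := by
    intro t ht
    obtain ⟨c', hc'⟩ := hS _ ht (T.res P t (i + 1) a)
    have hc'a : T.deg X (i + 1) a = c' * T.deg X (i + 1) (T.hp X (i + 1)) := by
      rw [← F.deg_res n X P t (i + 1) hi a, hc', map_smul, hdeg t, smul_eq_mul]
    have hcc : c = c' := by
      have := hca.symm.trans hc'a
      exact mul_right_cancel₀ hne this
    rw [map_sub, map_smul, F.res_hp, hc', hcc, sub_self]
  have hmem := F.spread n X P i hn _ hres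
  have hle : (⨆ t : T.Pt, LinearMap.range (T.push P t i)) ≤
      Submodule.span ℚ {T.hp X (i + 1)} := by
    apply iSup_le
    intro t x hx
    obtain ⟨b, rfl⟩ := hx
    obtain ⟨c', hc'⟩ := hN _ b
    rw [hc', map_smul, F.push_hp]
    exact Submodule.smul_mem _ _ (Submodule.mem_span_singleton_self _)
  obtain ⟨c'', hc''⟩ := Submodule.mem_span_singleton.mp (hle hmem)
  refine ⟨c + c'', ?_⟩
  rw [add_smul, hc'']
  abel

/-- The reduction, up to codimension `I`. -/
theorem main (F : Facts T) (I : ℕ) (hB : ∀ i : ℕ, 1 ≤ i → i ≤ I → Boundary T i) (i : ℕ)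
    (hi : i ≤ I) :
    (∀ n : ℕ, 2 * i + 1 ≤ n → ∀ X : T.Hyp n, T.Smooth X → Spanned X i) ∧
    (∀ n : ℕ, 2 * i + 2 ≤ n → ∀ X : T.Hyp n, Spanned X i) := by
  induction i with
  | zero =>
    exact ⟨fun n hn X hX => F.irred n X (by omega) (Or.inr hX),
      fun n hn X => F.irred n X (by omega) (Or.inl (by omega))⟩
  | succ i ih =>
    obtain ⟨-, ihN⟩ := ih (by omega)
    have hN : ∀ n : ℕ, 2 * (i + 1) + 2 ≤ n → ∀ X : T.Hyp n, Spanned X (i + 1) := by
      intro n hn
      induction n with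
      | zero => omega
      | succ m ihm =>
        intro X
        refine step F m i (by omega) (by omega) ?_ (ihN m (by omega)) X
        rcases Nat.lt_or_ge m (2 * (i + 1) + 2) with hlt | hge
        · have hm : m = 2 * (i + 1) + 1 := by omega
          subst hm
          exact hB (i + 1) (by omega) hi
        · exact fun Y _ => ihm hge Y
    refine ⟨fun n hn X hX => ?_, hN⟩
    rcases Nat.lt_or_ge n (2 * (i + 1) + 2) with hlt | hge
    · have hm : n = 2 * (i + 1) + 1 := by omega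
      subst hm
      exact hB (i + 1) (by omega) hi X hX
    · exact hN n hge X

theorem q1_iff (F : Facts T) : Q1 T ↔ ∀ i : ℕ, 1 ≤ i → Boundary T i := by
  constructor
  · intro h i hi X hX
    exact h (2 * i + 1) i (by omega) (by omega) X hX
  · intro h n i hn hin X hX
    exact (main F i (fun j hj _ => h j hj) i le_rfl).1 n (by omega) X hX

end Pool.Agent.N522.HT
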